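import Pool.Agent.Q175.KA.Main

/-!
Closedness of distributional supersolutions of `-Δu + g(u) = 0` under `L¹` convergence, for every
continuous `g` with the sign condition.

For a smooth decreasing cut-off `θ` of `(-∞, k]` with primitive `Θ`, Kato's inequality gives
`-ΔΘ(uₙ) + θ(uₙ) g(uₙ) ≥ 0`. The positive part of `θ(uₙ) g(uₙ)` is bounded, so that one may pass to
the limit in it, and for its negative part Fatou's lemma has the right sign. Then `k → ∞`.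
-/

namespace Pool.Agent.Results.MP_97dcc2_an.SupersolutionsClosed

open MeasureTheory Filter Topology Set Laplacian
open scoped ContDiff

/-- `-Δv + g(v) ≥ 0` in `Ω` in the sense of distributions. -/
def IsSupersolution {N : ℕ} (Ω : Set (EuclideanSpace ℝ (Fin N))) (g : ℝ → ℝ)
    (v : EuclideanSpace ℝ (Fin N) → ℝ) : Prop :=
  ∀ φ : EuclideanSpace ℝ (Fin N) → ℝ, ContDiff ℝ ∞ φ → HasCompactSupport φ → tsupport φ ⊆ Ω →
    (∀ x, 0 ≤ φ x) → 0 ≤ (∫ x in Ω, v x * (-Δ φ x)) + ∫ x in Ω, g (v x) * φ x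

lemma iff_lap {N : ℕ} {Ω : Set (EuclideanSpace ℝ (Fin N))} {g : ℝ → ℝ}
    {v : EuclideanSpace ℝ (Fin N) → ℝ} :
    IsSupersolution Ω g v ↔ ∀ ψ, Helper304Lap.Tst ψ → tsupport ψ ⊆ Ω → (∀ x, 0 ≤ ψ x) →
      ∫ x in Ω, v x * Helper304Lap.lap ψ x ≤ ∫ x in Ω, g (v x) * ψ x := by
  have e : ∀ φ : EuclideanSpace ℝ (Fin N) → ℝ, ContDiff ℝ ∞ φ →
      ∫ x in Ω, v x * (-Δ φ x) = -∫ x in Ω, v x * Helper304Lap.lap φ x := by
    intro φ hφ
    rw [← integral_neg]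
    congr 1
    ext x
    rw [Helper304Lap.lap_eq hφ]; ring
  constructor
  · intro h ψ hψ hs h0
    have := h ψ hψ.1 hψ.2 hs h0
    rw [e ψ hψ.1] at this
    linarith
  · intro h φ hφ hc hs h0
    have := h φ ⟨hφ, hc⟩ hs h0
    rw [e φ hφ]
    linarith

/-- Let `g` be continuous with `g(t) t ≥ 0`, let `uₙ → u` in `L¹(Ω)` with `g(uₙ)` bounded in
`L¹(Ω)` and `-Δuₙ + g(uₙ) ≥ 0` in the sense of distributions. Then `g(u) ∈ L¹(Ω)` and
`-Δu + g(u) ≥ 0` in the sense of distributions. Here `Ω` is an arbitrary open set. -/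
theorem result {N : ℕ} {Ω : Set (EuclideanSpace ℝ (Fin N))} (hΩ : IsOpen Ω) {g : ℝ → ℝ}
    (hg : Continuous g) (hsign : ∀ t, 0 ≤ g t * t) {u : ℕ → EuclideanSpace ℝ (Fin N) → ℝ}
    {v : EuclideanSpace ℝ (Fin N) → ℝ} (hu : ∀ n, IntegrableOn (u n) Ω)
    (hgu : ∀ n, IntegrableOn (fun x => g (u n x)) Ω)
    (hbd : ∃ C : ℝ, ∀ n, ∫ x in Ω, |g (u n x)| ≤ C)
    (hsup : ∀ n, IsSupersolution Ω g (u n)) (hv : IntegrableOn v Ω)
    (hlim : Tendsto (fun n => ∫ x in Ω, |u n x - v x|) atTop (𝓝 0)) :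
    IntegrableOn (fun x => g (v x)) Ω ∧ IsSupersolution Ω g v := by
  obtain ⟨C, hC⟩ := hbd
  have h := Q175.KA.closed hΩ hg hsign hu hgu hC (fun n => iff_lap.mp (hsup n)) hv hlim
  exact ⟨h.1, iff_lap.mpr h.2⟩

end Pool.Agent.Results.MP_97dcc2_an.SupersolutionsClosed
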